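import Mathlib

set_option autoImplicit false

open Finset MulAction Matrix
open scoped MatrixGroups

namespace Pool.Agent.H.MP_b9a4b9_al

theorem poles {H X : Type} [Group H] [Finite H] [MulAction H X] [Finite X] (z : H) (hz1 : z ≠ 1)
    (hz2 : z ^ 2 = 1) (hz : ∀ x : X, z • x = x)
    (hfix : ∀ h : H, h ≠ 1 → h ≠ z → Nat.card (fixedBy X h) = 2)
    (hP : ∀ x : X, ∃ h : H, h ≠ 1 ∧ h ≠ z ∧ h • x = x) (x0 : X)
    (h0 : 12 ≤ Nat.card (stabilizer H x0)) : Nat.card (orbit H x0) ≤ 2 := by
  classical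
  have := Fintype.ofFinite H
  have := Fintype.ofFinite X
  have B := sum_card_fixedBy_eq_card_orbits_mul_card_group H X
  have os : ∀ x : X, Nat.card (orbit H x) * Nat.card (stabilizer H x) = Fintype.card H := fun x => by
    rw [Nat.card_eq_fintype_card, Nat.card_eq_fintype_card]
    exact card_orbit_mul_card_stabilizer_eq_card_group H x
  have e1 : ∑ g : H, Fintype.card (fixedBy X g) + 4 = 2 * Fintype.card X + 2 * Fintype.card H := by
    have a1 : Fintype.card (fixedBy X (1 : H)) = Fintype.card X := by simp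
    have a2 : Fintype.card (fixedBy X z) = Fintype.card X :=
      Fintype.card_congr (Equiv.subtypeUnivEquiv hz)
    have a3 : 2 ≤ Fintype.card H := Fintype.one_lt_card_iff.2 ⟨z, 1, hz1⟩
    rw [← add_sum_erase _ _ (mem_univ 1), ← add_sum_erase _ _ (mem_erase.2 ⟨hz1, mem_univ z⟩),
      sum_congr rfl (g := fun _ => 2) (fun h hh => by
        rw [← Nat.card_eq_fintype_card]
        exact hfix h (ne_of_mem_erase (mem_of_mem_erase hh)) (ne_of_mem_erase hh)), a1, a2]
    simp [card_erase_of_mem, hz1]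
    omega
  let f : orbitRel.Quotient H X → ℕ := fun ω => Nat.card (orbit H ω.out)
  have e2 : Fintype.card X = ∑ ω, f ω := by
    rw [Fintype.card_congr (selfEquivSigmaOrbits H X), Fintype.card_sigma]
    exact sum_congr rfl (fun ω _ => Nat.card_eq_fintype_card.symm)
  have e3 : ∀ ω, 4 * f ω = Fintype.card H ∨ 6 * f ω ≤ Fintype.card H := by
    intro ω
    obtain ⟨h, h1, h2, h3⟩ := hP ω.out
    have : Fact (Nat.Prime 2) := ⟨Nat.prime_two⟩
    have d : 2 ∣ Nat.card (stabilizer H ω.out) :=
      orderOf_eq_prime hz2 hz1 ▸ Subgroup.orderOf_dvd_natCard _ (hz _)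
    have c : 2 < Nat.card (stabilizer H ω.out) := by
      rw [Nat.card_eq_fintype_card]
      exact Fintype.two_lt_card_iff.2 ⟨⟨h, h3⟩, 1, ⟨z, hz _⟩, fun e => h1 (congrArg Subtype.val e),
        fun e => h2 (congrArg Subtype.val e), fun e => hz1 (congrArg Subtype.val e).symm⟩
    have := os ω.out
    rcases (show Nat.card (stabilizer H ω.out) = 4 ∨ 6 ≤ Nat.card (stabilizer H ω.out) by omega)
      with h | h
    · left; rw [h] at this; simp only [f]; omega
    · right; simp only [f]; nlinarith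
  set ω0 : orbitRel.Quotient H X := Quotient.mk _ x0
  have e4 : f ω0 = Nat.card (orbit H x0) := by
    simp only [f]
    rw [(orbit_eq_iff.2 (orbitRel_apply.1 (Quotient.exact ω0.out_eq)) : orbit H ω0.out = orbit H x0)]
  have e5 : 12 * f ω0 ≤ Fintype.card H := by rw [e4]; nlinarith [os x0]
  rw [← e4]
  rw [e2, ← add_sum_erase _ _ (mem_univ ω0), B] at e1
  have hr : Fintype.card (Quotient (orbitRel H X)) = (univ.erase ω0).card + 1 := by
    rw [card_erase_add_one (mem_univ _)]; rfl
  rw [hr] at e1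
  generalize Fintype.card H = n at *
  by_contra hc
  by_cases hall : ∀ ω ∈ univ.erase ω0, 4 * f ω = n
  · have : 4 * ∑ ω ∈ univ.erase ω0, f ω = (univ.erase ω0).card * n := by
      rw [mul_sum, sum_congr rfl hall]; simp
    generalize (univ.erase ω0).card = q at *
    rcases (show q ≤ 2 ∨ 3 ≤ q by omega) with h | h <;> nlinarith
  · push Not at hall
    obtain ⟨ω1, h1, h2⟩ := hall
    have a1 := (e3 ω1).resolve_left h2
    have a2 : 4 * ∑ ω ∈ (univ.erase ω0).erase ω1, f ω ≤ ((univ.erase ω0).erase ω1).card * n := by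
      rw [mul_sum]
      exact sum_le_card_nsmul _ _ n (fun ω _ => by rcases e3 ω with h | h <;> omega)
    rw [← add_sum_erase _ _ h1, ← card_erase_add_one h1] at e1
    generalize ((univ.erase ω0).erase ω1).card = q at *
    rcases q with _ | q
    · have : ∀ ω, 0 < f ω := fun ω => Nat.card_pos_iff.2 ⟨⟨⟨_, mem_orbit_self _⟩⟩, inferInstance⟩
      have := this ω1
      omega
    · nlinarith

theorem index_ge {G : Type} [Group G] [Finite G] [IsSimpleGroup G] {p : ℕ} (hp : p.Prime)
    (hd : p ∣ Nat.card G) (M : Subgroup G) (hM : M ≠ ⊤) : p * Nat.card M ≤ Nat.card G := by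
  classical
  have h1 : M.normalCore = ⊥ := (M.normalCore_normal.eq_bot_or_eq_top).resolve_right
    (fun h => hM (top_le_iff.1 (h ▸ M.normalCore_le)))
  rw [Subgroup.normalCore_eq_ker, MonoidHom.ker_eq_bot_iff] at h1
  have h2 := hd.trans (Subgroup.card_dvd_of_injective _ h1)
  rw [Nat.card_perm, hp.dvd_factorial] at h2
  rw [← M.index_mul_card]
  exact Nat.mul_le_mul_right _ h2

end Pool.Agent.H.MP_b9a4b9_al
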