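import Mathlib
import Pool.Agent.H.MP_b9a4b9_al.A

set_option autoImplicit false

open Finset MulAction Matrix
open scoped MatrixGroups

namespace Pool.Agent.H.MP_b9a4b9_al

variable {F : Type} [Field F]

abbrev M2 (F : Type) := Matrix (Fin 2) (Fin 2) F

def vl (g : SL(2, F)) : M2 F := g.1

@[simp] theorem vl_mul (g h : SL(2, F)) : vl (g * h) = vl g * vl h := rfl
@[simp] theorem vl_one : vl (1 : SL(2, F)) = 1 := rfl
@[simp] theorem vl_neg (g : SL(2, F)) : vl (-g) = -vl g := rfl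
@[simp] theorem vl_det (g : SL(2, F)) : (vl g).det = 1 := g.2
theorem vl_ext {g h : SL(2, F)} (e : vl g = vl h) : g = h := Subtype.ext e

theorem det1 (g : SL(2, F)) : (vl g) 0 0 * (vl g) 1 1 - (vl g) 0 1 * (vl g) 1 0 = 1 := by
  have := vl_det g
  rwa [det_fin_two] at this

theorem scal {g : SL(2, F)} {c : F} (h : (vl g) = c • 1) : g = 1 ∨ g = -1 := by
  have := det1 g
  simp [h] at this
  rcases mul_self_eq_one_iff.1 this with rfl | rfl
  · left; exact vl_ext (by simpa using h)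
  · right; exact vl_ext (by simpa using h)

def tl (g : SL(2, F)) : M2 F := (2 : F) • (vl g) - trace (vl g) • 1

theorem tl_eq (g : SL(2, F)) :
    tl g = !![(vl g) 0 0 - (vl g) 1 1, 2 * (vl g) 0 1; 2 * (vl g) 1 0, (vl g) 1 1 - (vl g) 0 0] := by
  ext i j
  fin_cases i <;> fin_cases j <;> simp [tl, trace_fin_two] <;> ring

theorem tl_ne (h2 : (2 : F) ≠ 0) {g : SL(2, F)} (h1 : g ≠ 1) (h1' : g ≠ -1) : tl g ≠ 0 := by
  intro h
  have : (vl g) = (trace (vl g) / 2) • 1 := by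
    rw [div_eq_inv_mul, mul_smul, ← sub_eq_zero.1 h, smul_smul, inv_mul_cancel₀ h2, one_smul]
  exact (scal this).elim h1 h1'

theorem tl_det (g : SL(2, F)) : (tl g).det = 4 - trace (vl g) ^ 2 := by
  rw [tl_eq, det_fin_two_of, trace_fin_two]; linear_combination 4 * det1 g

theorem comm_tl (h2 : (2 : F) ≠ 0) {g : SL(2, F)} (h1 : g ≠ 1) (h1' : g ≠ -1) {s : M2 F}
    (hs : trace s = 0) (hc : (vl g) * s = s * (vl g)) : ∃ β : F, s = β • tl g := by
  have a := congrFun (congrFun hc 0) 0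
  have b := congrFun (congrFun hc 0) 1
  have c := congrFun (congrFun hc 1) 0
  simp only [mul_apply, Fin.sum_univ_two] at a b c
  rw [trace_fin_two] at hs
  have hne := tl_ne h2 h1 h1'
  rw [tl_eq] at hne ⊢
  by_cases e1 : (vl g) 0 0 - (vl g) 1 1 ≠ 0
  · refine ⟨s 0 0 / ((vl g) 0 0 - (vl g) 1 1), ?_⟩
    ext i j
    fin_cases i <;> fin_cases j <;> simp <;> field_simp
    · linear_combination b - (vl g) 0 1 * hs
    · linear_combination -c - (vl g) 1 0 * hs
    · linear_combination ((vl g) 0 0 - (vl g) 1 1) * hs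
  by_cases e2 : (vl g) 0 1 ≠ 0
  · refine ⟨s 0 1 / (2 * (vl g) 0 1), ?_⟩
    ext i j
    fin_cases i <;> fin_cases j <;> simp <;> field_simp
    · linear_combination -b + (vl g) 0 1 * hs
    · linear_combination a
    · linear_combination b + (vl g) 0 1 * hs
  by_cases e3 : (vl g) 1 0 ≠ 0
  · refine ⟨s 1 0 / (2 * (vl g) 1 0), ?_⟩
    ext i j
    fin_cases i <;> fin_cases j <;> simp <;> field_simp
    · linear_combination c + (vl g) 1 0 * hs
    · linear_combination -a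
    · linear_combination -c + (vl g) 1 0 * hs
  push Not at e1 e2 e3
  exact absurd (by rw [e2, e3, ← neg_sub ((vl g) 0 0), e1]; ext i j; fin_cases i <;> fin_cases j <;> simp)
    hne

theorem tl_comm (g : SL(2, F)) : (vl g) * tl g = tl g * (vl g) := by simp [tl, mul_sub, sub_mul]

theorem tl_tr (g : SL(2, F)) : trace (tl g) = 0 := by simp [tl]; ring

theorem fix2 [Finite F] (hn : ¬IsSquare (-1 : F)) {g : SL(2, F)} (h1 : g ≠ 1) (h1' : g ≠ -1)
    (ht : trace (vl g) ^ 2 ≠ 4) : ∃ β : F, β ≠ 0 ∧ ∀ s : M2 F,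
      (trace s = 0 ∧ s.det ^ 2 = 1) ∧ (vl g) * s = s * (vl g) ↔ s = β • tl g ∨ s = -(β • tl g) := by
  classical
  have := Fintype.ofFinite F
  have h2 : (2 : F) ≠ 0 := fun h => hn ⟨1, by linear_combination -h⟩
  have hD : (tl g).det ≠ 0 := by rw [tl_det]; exact sub_ne_zero.2 ht.symm
  obtain ⟨r, hr⟩ : ∃ r : F, (tl g).det ^ 2 = r ^ 4 := by
    rcases quadraticChar_dichotomy hD with h | h
    · obtain ⟨r, hr⟩ := (quadraticChar_one_iff_isSquare hD).1 h
      exact ⟨r, by rw [hr]; ring⟩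
    · obtain ⟨r, hr⟩ := (quadraticChar_one_iff_isSquare (neg_ne_zero.2 hD)).1 (by
        rw [neg_eq_neg_one_mul, map_mul, h, quadraticChar_neg_one_iff_not_isSquare.2 hn]; simp)
      exact ⟨r, by rw [← neg_sq, hr]; ring⟩
  have r0 : r ≠ 0 := by rintro rfl; simp [hD] at hr
  refine ⟨r⁻¹, inv_ne_zero r0, fun s => ⟨fun ⟨⟨a, b⟩, c⟩ => ?_, ?_⟩⟩
  · obtain ⟨β, rfl⟩ := comm_tl h2 h1 h1' a c
    rw [det_smul, mul_pow, hr, Fintype.card_fin] at b
    have : (β * r - 1) * (β * r + 1) * ((β * r) ^ 2 + 1) = 0 := by linear_combination b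
    rcases mul_eq_zero.1 this with h | h
    · rcases mul_eq_zero.1 h with h | h
      · left; rw [eq_inv_of_mul_eq_one_left (sub_eq_zero.1 h)]
      · right; rw [← neg_smul, ← eq_inv_of_mul_eq_one_left (a := -β) (by linear_combination -h),
          neg_neg]
    · exact absurd ⟨β * r, by linear_combination -h⟩ hn
  · rintro (rfl | rfl)
    · refine ⟨⟨by simp [tl_tr], ?_⟩, by simp [tl_comm]⟩
      rw [det_smul, mul_pow, hr, Fintype.card_fin]; field_simp
    · refine ⟨⟨by simp [tl_tr], ?_⟩, by simp [tl_comm]⟩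
      rw [det_neg, det_smul, mul_pow, mul_pow, hr, Fintype.card_fin]; field_simp

theorem semis [Finite F] (hn : ¬IsSquare (-1 : F)) (H : Subgroup SL(2, F)) (hz : -1 ∈ H)
    (ht : ∀ h ∈ H, h ≠ 1 → h ≠ -1 → trace (vl h) ^ 2 ≠ 4) {a b : SL(2, F)} (ha : a ∈ H) (hb : b ∈ H)
    (ho : 12 ≤ orderOf a) : (vl b) * tl a = tl a * (vl b) ∨ (vl b) * tl a = -(tl a * (vl b)) := by
  have h2 : (2 : F) ≠ 0 := fun h => hn ⟨1, by linear_combination -h⟩
  have hz1 : (-1 : SL(2, F)) ≠ 1 := fun h => h2 (by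
    have := congrFun (congrFun (congrArg vl h) 0) 0
    simp at this; linear_combination -this)
  have inv : ∀ h : SL(2, F), vl h⁻¹ * vl h = 1 := fun h => by
    rw [← vl_mul, inv_mul_cancel, vl_one]
  have inv' : ∀ h : SL(2, F), vl h * vl h⁻¹ = 1 := fun h => by
    rw [← vl_mul, mul_inv_cancel, vl_one]
  let P := {s : M2 F // (trace s = 0 ∧ s.det ^ 2 = 1) ∧
    ∃ h ∈ H, h ≠ 1 ∧ h ≠ -1 ∧ vl h * s = s * vl h}
  let _ : MulAction H P :=
    { smul := fun h s => ⟨vl h.1 * s.1 * vl h.1⁻¹, ⟨by rw [trace_mul_cycle, inv, one_mul, s.2.1.1],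
        by simpa using s.2.1.2⟩, by
          obtain ⟨g, g0, g1, g2, g3⟩ := s.2.2
          refine ⟨h.1 * g * h.1⁻¹, H.mul_mem (H.mul_mem h.2 g0) (H.inv_mem h.2), by simpa using g1,
            fun e => g2 (mul_left_cancel (a := h.1) (by simpa [mul_inv_eq_iff_eq_mul] using e)), ?_⟩
          simp only [vl_mul, mul_assoc]
          rw [← mul_assoc (vl h.1⁻¹), ← mul_assoc (vl h.1⁻¹), inv, one_mul, one_mul,
            ← mul_assoc (vl g), g3, mul_assoc]⟩
      one_smul := fun s => Subtype.ext (by change vl 1 * s.1 * vl 1⁻¹ = _; simp)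
      mul_smul := fun h g s => Subtype.ext (by
        change vl (h.1 * g.1) * s.1 * vl (h.1 * g.1)⁻¹ = vl h.1 * (vl g.1 * s.1 * vl g.1⁻¹) * vl h.1⁻¹
        simp only [_root_.mul_inv_rev, vl_mul, mul_assoc]) }
  have sm : ∀ (h : H) (s t : P), h • s = t ↔ vl h.1 * s.1 = t.1 * vl h.1 := fun h s t => by
    rw [Subtype.ext_iff]
    change vl h.1 * s.1 * vl h.1⁻¹ = t.1 ↔ _
    exact ⟨fun e => by rw [← e, mul_assoc, inv, mul_one],
      fun e => by rw [e, mul_assoc, inv', mul_one]⟩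
  have a1 : a ≠ 1 := by rintro rfl; simp at ho
  have a2 : a ≠ -1 := by
    rintro rfl
    have := orderOf_le_of_pow_eq_one (x := (-1 : SL(2, F))) two_pos (by simp); omega
  obtain ⟨β, β0, hβ⟩ := fix2 hn a1 a2 (ht a ha a1 a2)
  let x0 : P := ⟨β • tl a, ((hβ _).2 (Or.inl rfl)).1, a, ha, a1, a2, ((hβ _).2 (Or.inl rfl)).2⟩
  have ax : (⟨a, ha⟩ : H) • x0 = x0 := (sm _ _ _).2 ((hβ _).2 (Or.inl rfl)).2
  have ho2 := poles (H := H) (X := P) ⟨-1, hz⟩ (fun e => hz1 (congrArg Subtype.val e))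
    (Subtype.ext (by simp)) (fun x => (sm _ _ _).2 (by simp)) (fun h h1 h2' => ?_)
    (fun ⟨s, _, h, h0, h1, h2, h3⟩ => ⟨⟨h, h0⟩, fun e => h1 (congrArg Subtype.val e),
      fun e => h2 (congrArg Subtype.val e), (sm _ _ _).2 h3⟩) x0
    (ho.trans (Nat.le_of_dvd Nat.card_pos (by
      rw [← Subgroup.orderOf_mk a ha]; exact Subgroup.orderOf_dvd_natCard _ ax)))
  · have key : ∀ c : F, ((vl b) * (β • tl a) = (c • β • tl a) * (vl b)) → (vl b) * tl a = c • (tl a * (vl b)) := by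
      intro c h
      rw [mul_smul_comm, smul_comm, smul_mul_assoc, smul_mul_assoc] at h
      exact smul_right_injective _ β0 h
    by_cases e : (⟨b, hb⟩ : H) • x0 = x0
    · exact Or.inl (by simpa using key 1 (by simpa [x0] using (sm _ _ _).1 e))
    have e2 : (⟨a, ha⟩ : H) • (⟨b, hb⟩ : H) • x0 = (⟨b, hb⟩ : H) • x0 := by
      by_contra e2
      have := Fintype.ofFinite (orbit H x0)
      rw [Nat.card_eq_fintype_card] at ho2
      refine absurd ((Fintype.two_lt_card_iff (α := orbit H x0)).2 ⟨⟨x0, mem_orbit_self _⟩,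
        ⟨_, mem_orbit x0 (⟨b, hb⟩ : H)⟩,
        ⟨_, mem_orbit_of_mem_orbit (⟨a, ha⟩ : H) (mem_orbit x0 (⟨b, hb⟩ : H))⟩,
        fun h => e (congrArg Subtype.val h).symm, fun h => e (smul_left_cancel (⟨a, ha⟩ : H)
          ((congrArg Subtype.val h).symm.trans ax.symm)),
        fun h => e2 (congrArg Subtype.val h).symm⟩) (by omega)
    rcases (hβ _).1 ⟨((⟨b, hb⟩ : H) • x0).2.1, (sm _ _ _).1 e2⟩ with h | h
    · exact absurd (Subtype.ext h) e
    · have := (sm ⟨b, hb⟩ x0 _).1 rfl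
      rw [h] at this
      exact Or.inr (by simpa using key (-1) (by simpa [x0] using this))
  · have h1' : h.1 ≠ 1 := fun e => h1 (Subtype.ext e)
    have h2'' : h.1 ≠ -1 := fun e => h2' (Subtype.ext e)
    obtain ⟨γ, γ0, hγ⟩ := fix2 hn h1' h2'' (ht _ h.2 h1' h2'')
    have p1 := (hγ _).2 (Or.inl rfl)
    have p2 := (hγ _).2 (Or.inr rfl)
    rw [Nat.card_eq_two_iff]
    refine ⟨⟨⟨_, p1.1, _, h.2, h1', h2'', p1.2⟩, (sm _ _ _).2 p1.2⟩,
      ⟨⟨_, p2.1, _, h.2, h1', h2'', p2.2⟩, (sm _ _ _).2 p2.2⟩, fun e => ?_, ?_⟩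
    · have e' : γ • tl h.1 = -(γ • tl h.1) := congrArg (fun x => x.1.1) e
      rw [eq_neg_iff_add_eq_zero, ← two_smul F, smul_smul] at e'
      exact smul_ne_zero (mul_ne_zero h2 γ0) (tl_ne h2 h1' h2'') e'
    · refine Set.eq_univ_of_forall (fun x => ?_)
      rcases (hγ _).1 ⟨x.1.2.1, (sm _ _ _).1 x.2⟩ with e | e
      exacts [Or.inl (Subtype.ext (Subtype.ext e)), Or.inr (Subtype.ext (Subtype.ext e))]

end Pool.Agent.H.MP_b9a4b9_al
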