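import Mathlib
import Pool.Agent.H.MP_b9a4b9_al.B

set_option autoImplicit false

open Finset MulAction Matrix Polynomial
open scoped MatrixGroups

namespace Pool.Agent.H.MP_b9a4b9_al

variable {F : Type} [Field F]

theorem vl_ext' {g h : SL(2, F)} (a : vl g 0 0 = vl h 0 0) (b : vl g 0 1 = vl h 0 1)
    (c : vl g 1 0 = vl h 1 0) (d : vl g 1 1 = vl h 1 1) : g = h :=
  vl_ext (by ext i j; fin_cases i <;> fin_cases j <;> assumption)

theorem SL_lt [Finite F] : Nat.card SL(2, F) < Nat.card F ^ 3 := by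
  classical
  have := Fintype.ofFinite F
  have := Fintype.ofFinite SL(2, F)
  have h := Fintype.card_lt_of_injective_of_notMem (fun g : SL(2, F) =>
    if vl g 0 0 = 0 then ((0 : F), vl g 0 1, vl g 1 1) else (vl g 0 0, vl g 0 1, vl g 1 0))
    (b := (0, 0, 0)) (fun g h e => ?_) ?_
  · simpa [pow_succ, mul_assoc] using h
  · have a := det1 g
    have b := det1 h
    beta_reduce at e
    split_ifs at e with h1 h2 h2 <;> simp only [Prod.mk.injEq] at e
    · refine vl_ext' (h1.trans h2.symm) e.2.1 ?_ e.2.2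
      rw [h1] at a; rw [h2, ← e.2.1] at b
      linear_combination vl h 1 0 * a - vl g 1 0 * b
    · exact absurd e.1.symm h2
    · exact absurd e.1 h1
    · refine vl_ext' e.1 e.2.1 e.2.2 (mul_left_cancel₀ h1 ?_)
      rw [← e.1, ← e.2.1, ← e.2.2] at b
      linear_combination a - b
  · rintro ⟨g, e⟩
    have a := det1 g
    beta_reduce at e
    split_ifs at e with h1 <;> simp only [Prod.mk.injEq] at e
    · simp [h1, e.2.1] at a
    · exact h1 e.1

theorem SL_ge [Finite F] : (Nat.card F - 1) * Nat.card F ^ 2 ≤ Nat.card SL(2, F) := by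
  have h := Nat.card_le_card_of_injective (fun x : Fˣ × F × F => (⟨!![x.1, x.2.1; x.2.2,
    (1 + x.2.1 * x.2.2) / x.1], by rw [det_fin_two_of]; field_simp; ring⟩ : SL(2, F)))
    (fun x y e => by
      have e' := congrArg vl e
      exact Prod.ext (Units.ext (congrFun (congrFun e' 0) 0))
        (Prod.ext (congrFun (congrFun e' 0) 1) (congrFun (congrFun e' 1) 0)))
  rwa [Nat.card_prod, Nat.card_prod, Nat.card_units, ← sq] at h

theorem cnt0 [Finite F] (φ : M2 F →ₗ[F] F) (h0 : φ (single 0 0 1) ≠ 0) (τ : F) :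
    Nat.card {b : SL(2, F) // φ (vl b) = τ} ≤ 2 * Nat.card F ^ 2 := by
  classical
  have e : ∀ m : M2 F, φ m = m 0 0 * φ (single 0 0 1) + m 0 1 * φ (single 0 1 1) +
      m 1 0 * φ (single 1 0 1) + m 1 1 * φ (single 1 1 1) := fun m => by
    simp only [← smul_eq_mul, ← map_smul, ← map_add]
    congr 1
    ext i j; fin_cases i <;> fin_cases j <;> simp
  have h := Nat.card_le_card_of_injective (fun b : {b : SL(2, F) // φ (vl b) = τ} =>
    if φ (single 1 0 1) * vl b.1 1 1 + φ (single 0 0 1) * vl b.1 0 1 = 0 then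
      (true, vl b.1 1 0, vl b.1 1 1) else (false, vl b.1 0 1, vl b.1 1 1)) (fun g h hh => ?_)
  · simpa [sq] using h
  have a := det1 g.1
  have b := det1 h.1
  have c := (e _).symm.trans (g.2.trans (h.2.symm.trans (e _)))
  beta_reduce at hh
  split_ifs at hh with h1 h2 h2 <;> simp only [Prod.mk.injEq, reduceCtorEq, false_and] at hh
  · have k : vl g.1 0 1 = vl h.1 0 1 := mul_left_cancel₀ h0 (by
      rw [hh.2.2] at h1; linear_combination h1 - h2)
    refine Subtype.ext (vl_ext' (mul_right_cancel₀ h0 ?_) k hh.2.1 hh.2.2)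
    rw [k, hh.2.1, hh.2.2] at c; linear_combination c
  · rw [hh.2.1, hh.2.2] at a c
    have k : vl g.1 1 0 = vl h.1 1 0 := mul_left_cancel₀ h2 (by
      linear_combination vl h.1 1 1 * c - φ (single 0 0 1) * (a - b))
    refine Subtype.ext (vl_ext' (mul_right_cancel₀ h0 ?_) hh.2.1 k hh.2.2)
    rw [k] at c; linear_combination c

theorem cnt [Finite F] (ψ : M2 F →ₗ[F] M2 F) (h0 : ψ ≠ 0) :
    Nat.card {b : SL(2, F) // ψ (vl b) = 0} ≤ 2 * Nat.card F ^ 2 := by
  obtain ⟨i, j, hij⟩ : ∃ i j, ψ (single i j 1) ≠ 0 := by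
    by_contra h
    push Not at h
    exact h0 (ext_linearMap F (fun i j => LinearMap.ext_ring (by simpa using h i j)))
  obtain ⟨k, l, hkl⟩ : ∃ k l, ψ (single i j 1) k l ≠ 0 := by
    by_contra h
    push Not at h
    exact hij (Matrix.ext h)
  let w : Fin 2 → SL(2, F) := ![1, ⟨!![0, -1; 1, 0], by simp [det_fin_two_of]⟩]
  have e : vl (w i) * single 0 0 1 * vl (w j)⁻¹ = single i j 1 := by
    ext a b
    fin_cases i <;> fin_cases j <;> fin_cases a <;> fin_cases b <;>
      simp [w, vl, mul_apply, Fin.sum_univ_two, adjugate_fin_two, vecMul, dotProduct]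
  refine le_trans (Nat.card_le_card_of_injective (fun b => ⟨(w i)⁻¹ * b.1 * w j, ?_⟩)
    (fun a b h => ?_)) (cnt0 (entryLinearMap F F k l ∘ₗ ψ ∘ₗ
      LinearMap.mulRight F (vl (w j)⁻¹) ∘ₗ LinearMap.mulLeft F (vl (w i))) (by simpa [e]) 0)
  swap
  · simp [← vl_mul, mul_assoc, b.2]
  · exact Subtype.ext (mul_left_cancel (mul_right_cancel (congrArg Subtype.val h)))

theorem ch (a : SL(2, F)) : vl a * vl a = trace (vl a) • vl a - 1 := by
  have := det1 a
  ext i j
  fin_cases i <;> fin_cases j <;> simp [mul_apply, Fin.sum_univ_two, trace_fin_two] <;>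
    first | ring1 | linear_combination -this

theorem cheb (n : ℕ) : ∃ P Q : F[X], P.degree = n ∧ Q.degree < n ∧ ∀ a : SL(2, F),
    vl (a ^ (n + 1)) = P.eval (trace (vl a)) • vl a - Q.eval (trace (vl a)) • 1 := by
  induction n with
  | zero => exact ⟨1, 0, by simp, by simp, fun a => by simp⟩
  | succ n ih =>
    obtain ⟨P, Q, h1, h2, h3⟩ := ih
    have h4 : (X * P).degree = ((n + 1 : ℕ) : WithBot ℕ) := by rw [degree_mul, degree_X, h1, add_comm]; rfl
    refine ⟨X * P - Q, P, ?_, by rw [h1]; exact_mod_cast n.lt_succ_self, fun a => ?_⟩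
    · rw [degree_sub_eq_left_of_degree_lt, h4]
      rw [h4]; exact h2.trans (by exact_mod_cast n.lt_succ_self)
    · rw [pow_succ, vl_mul, h3, sub_mul, smul_mul_assoc, ch]
      simp only [eval_sub, eval_mul, eval_X, smul_mul_assoc, one_mul]
      module

theorem small [Finite F] :
    Nat.card {a : SL(2, F) // orderOf a < 12} ≤ 2 + 27719 * (2 * Nat.card F ^ 2) := by
  classical
  have := Fintype.ofFinite SL(2, F)
  obtain ⟨P, Q, h1, -, h3⟩ := cheb (F := F) 27719
  have P0 : P ≠ 0 := by rintro rfl; simp at h1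
  have : univ.filter (fun a : SL(2, F) => orderOf a < 12) ⊆ {1, -1} ∪
      P.roots.toFinset.biUnion (fun t => univ.filter (fun a => trace (vl a) = t)) := by
    intro a ha
    have h4 := (mem_filter.1 ha).2
    have h5 := orderOf_pos a
    have h6 : a ^ (27719 + 1) = 1 := orderOf_dvd_iff_pow_eq_one.1 (by
      generalize orderOf a = m at h4 h5; interval_cases m <;> norm_num)
    by_cases h : P.eval (trace (vl a)) = 0
    · exact mem_union_right _ (mem_biUnion.2 ⟨_, by simpa [P0] using h, by simp⟩)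
    · have h7 := h3 a
      rw [h6, vl_one, eq_sub_iff_add_eq] at h7
      exact mem_union_left _ (by simpa using scal (c := (P.eval (trace (vl a)))⁻¹ *
        (1 + Q.eval (trace (vl a)))) (by rw [mul_smul, add_smul, one_smul, h7, inv_smul_smul₀ h]))
  rw [Nat.card_eq_fintype_card, Fintype.card_subtype]
  refine (card_le_card this).trans ((card_union_le _ _).trans (add_le_add card_le_two
    ((card_biUnion_le_card_mul _ _ (2 * Nat.card F ^ 2) (fun t _ => ?_)).trans
      (Nat.mul_le_mul_right _ ((Multiset.toFinset_card_le _).trans ((card_roots' P).trans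
        (natDegree_le_iff_degree_le.2 h1.le)))))))
  have := cnt0 (traceLinearMap (Fin 2) F F) (by simp) t
  rwa [Nat.card_eq_fintype_card, Fintype.card_subtype] at this

theorem par {N : M2 F} (hN : N ≠ 0) {x y : Fin 2 → F} (hx : x ≠ 0) (h1 : N *ᵥ x = 0)
    (h2 : N *ᵥ y = 0) : ∃ c : F, y = c • x := by
  obtain ⟨k, l, hkl⟩ : ∃ k l, N k l ≠ 0 := by
    by_contra h
    push Not at h
    exact hN (Matrix.ext h)
  have a := congrFun h1 k
  have b := congrFun h2 k
  simp only [mulVec, dotProduct, Fin.sum_univ_two, Pi.zero_apply] at a b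
  have e : x 0 * y 1 = x 1 * y 0 := mul_left_cancel₀ hkl (by
    obtain rfl | rfl : l = 0 ∨ l = 1 := by fin_cases l <;> simp
    · linear_combination y 1 * a - x 1 * b
    · linear_combination x 0 * b - y 0 * a)
  by_cases h : x 0 = 0
  · have h' : x 1 ≠ 0 := fun h' => hx (by ext i; fin_cases i <;> assumption)
    refine ⟨y 1 / x 1, ?_⟩
    ext i; fin_cases i <;> simp <;> field_simp
    linear_combination -e
  · refine ⟨y 0 / x 0, ?_⟩
    ext i; fin_cases i <;> simp <;> field_simp
    linear_combination e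

def Cond (a b : SL(2, F)) : Prop := vl b * tl a = tl a * vl b ∨ vl b * tl a = -(tl a * vl b) ∨
  ∃ c : F, c ^ 2 - trace (vl a) * c + 1 = 0 ∧
    (vl a - c • 1) * vl b * (vl a - (trace (vl a) - c) • 1) = 0

theorem borel {ν : M2 F} (h0 : ν ≠ 0) (h1 : ν * ν = 0) {a b : SL(2, F)} (a1 : a ≠ 1) (a2 : a ≠ -1)
    (ha : ν * vl a * ν = 0) (hb : ν * vl b * ν = 0) : Cond a b := by
  obtain ⟨e, he⟩ : ∃ e, ν *ᵥ e ≠ 0 := by
    by_contra h
    push Not at h
    exact h0 (ext_of_mulVec_single (fun i => by rw [h, zero_mulVec]))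
  have hv : ν *ᵥ ν *ᵥ e = 0 := by rw [mulVec_mulVec, h1, zero_mulVec]
  obtain ⟨c, hc⟩ := par h0 he hv (y := vl a *ᵥ ν *ᵥ e)
    (by rw [mulVec_mulVec, mulVec_mulVec, ha, zero_mulVec])
  obtain ⟨d, hd⟩ := par h0 he hv (y := vl b *ᵥ ν *ᵥ e)
    (by rw [mulVec_mulVec, mulVec_mulVec, hb, zero_mulVec])
  generalize ν *ᵥ e = v at he hc hd
  have r : c ^ 2 - trace (vl a) * c + 1 = 0 := by
    have := congrArg (· *ᵥ v) (ch a)
    simp only [← mulVec_mulVec, hc, mulVec_smul, sub_mulVec, smul_mulVec, one_mulVec] at this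
    refine (smul_eq_zero_iff_left he).1 ?_
    linear_combination (norm := module) this
  have A0 : vl a - c • 1 ≠ 0 := fun h => (scal (sub_eq_zero.1 h)).elim a1 a2
  have Av : (vl a - c • 1) *ᵥ v = 0 := by simp [sub_mulVec, hc, smul_mulVec]
  have AB : (vl a - c • 1) * (vl a - (trace (vl a) - c) • 1) = 0 := by
    simp only [sub_mul, mul_sub, ch, smul_mul_assoc, mul_smul_comm, one_mul, mul_one]
    linear_combination (norm := module) (-r) • (1 : M2 F)
  refine Or.inr (Or.inr ⟨c, r, ext_of_mulVec_single (fun i => ?_)⟩)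
  obtain ⟨k, hk⟩ := par A0 he Av (y := (vl a - (trace (vl a) - c) • 1) *ᵥ Pi.single i 1)
    (by rw [mulVec_mulVec, AB, zero_mulVec])
  rw [← mulVec_mulVec, ← mulVec_mulVec, hk, mulVec_smul, hd, mulVec_smul, mulVec_smul, Av, zero_mulVec]
  simp

theorem cond_card [Finite F] (h2 : (2 : F) ≠ 0) {a : SL(2, F)} (a1 : a ≠ 1) (a2 : a ≠ -1) :
    Nat.card {b : SL(2, F) // Cond a b} ≤ 8 * Nat.card F ^ 2 := by
  have t0 := tl_ne h2 a1 a2
  have k : ∀ c d : F, Nat.card {b : SL(2, F) // (vl a - c • 1) * vl b * (vl a - d • 1) = 0} ≤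
      2 * Nat.card F ^ 2 := fun c d => by
    refine cnt (LinearMap.mulRight F (vl a - d • 1) ∘ₗ LinearMap.mulLeft F (vl a - c • 1))
      (fun h => ?_)
    have A0 : ∀ c : F, ∃ i j, (vl a - c • 1 : M2 F) i j ≠ 0 := fun c => by
      by_contra h
      push Not at h
      exact (scal (sub_eq_zero.1 (Matrix.ext h))).elim a1 a2
    obtain ⟨i, j, h1⟩ := A0 c
    obtain ⟨k, l, h2⟩ := A0 d
    have := congrFun (congrFun (LinearMap.congr_fun h (single j k 1)) i) l
    generalize vl a - c • 1 = A at h1 this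
    generalize vl a - d • 1 = B at h2 this
    fin_cases j <;> fin_cases k <;> simp_all [mul_apply, Fin.sum_univ_two]
  have k1 := cnt (LinearMap.mulRight F (tl a) - LinearMap.mulLeft F (tl a)) (fun h => t0 (by
    have x := LinearMap.congr_fun h (single 0 1 1)
    have y := congrFun (congrFun (LinearMap.congr_fun h (single 1 0 1)) 0) 0
    have x0 := congrFun (congrFun x 0) 0
    have x1 := congrFun (congrFun x 0) 1
    have z := tl_tr a
    generalize tl a = A at *
    simp [mul_apply, Fin.sum_univ_two, trace_fin_two] at x0 x1 y z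
    have : A 0 0 = 0 := mul_left_cancel₀ h2 (by linear_combination z - x1)
    ext i j; fin_cases i <;> fin_cases j <;> simp_all))
  have k2 := cnt (LinearMap.mulRight F (tl a) + LinearMap.mulLeft F (tl a)) (fun h => t0 (by
    have x := LinearMap.congr_fun h 1
    simpa [← two_smul F, h2] using x))
  obtain ⟨c, hc⟩ : ∃ c : F, ∀ d : F, d ^ 2 - trace (vl a) * d + 1 = 0 →
      d = c ∨ d = trace (vl a) - c := by
    by_cases h : ∃ c : F, c ^ 2 - trace (vl a) * c + 1 = 0
    · obtain ⟨c, hc⟩ := h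
      exact ⟨c, fun d hd => (mul_eq_zero.1 (show (d - c) * (d - (trace (vl a) - c)) = 0 by
        linear_combination hd - hc)).imp sub_eq_zero.1 sub_eq_zero.1⟩
    · exact ⟨0, fun d hd => absurd ⟨d, hd⟩ h⟩
  have k3 := k c (trace (vl a) - c)
  have k4 := k (trace (vl a) - c) (trace (vl a) - (trace (vl a) - c))
  rw [← Set.coe_ofPred, Nat.card_coe_set_eq] at k1 k2 k3 k4 ⊢
  refine le_trans (Set.ncard_le_ncard ?_) ((Set.ncard_union_le _ _).trans ((add_le_add
    ((Set.ncard_union_le _ _).trans (add_le_add k1 k2))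
    ((Set.ncard_union_le _ _).trans (add_le_add k3 k4))).trans (by omega)))
  rintro b (h | h | ⟨d, h, h'⟩)
  · exact Or.inl (Or.inl (by simp [h]))
  · exact Or.inl (Or.inr (by simp [h]))
  · rcases hc d h with rfl | rfl
    exacts [Or.inr (Or.inl h'), Or.inr (Or.inr h')]

end Pool.Agent.H.MP_b9a4b9_al
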