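import Mathlib
import Pool.Agent.H.MP_b9a4b9_al.C

set_option autoImplicit false

open Finset MulAction Matrix
open scoped MatrixGroups

namespace Pool.Agent.H.MP_b9a4b9_al

section
variable {F : Type} [Field F]

abbrev pr : SL(2, F) →* PSL(2, F) := QuotientGroup.mk' _

theorem pr_one {g : SL(2, F)} : pr g = 1 ↔ g = 1 ∨ g = -1 := by
  rw [QuotientGroup.mk'_apply, QuotientGroup.eq_one_iff]
  refine ⟨fun h => ?_, ?_⟩
  · obtain ⟨r, -, hr⟩ := Matrix.SpecialLinearGroup.mem_center_iff.1 h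
    exact scal (c := r) (by rw [smul_one_eq_diagonal]; exact hr.symm)
  · rintro (rfl | rfl)
    · exact one_mem _
    · exact Subgroup.mem_center_iff.2 (by simp)

theorem PSL_card [Finite F] : Nat.card SL(2, F) ≤ 2 * Nat.card PSL(2, F) ∧
    Nat.card PSL(2, F) ≤ Nat.card SL(2, F) := by
  refine ⟨?_, Nat.card_le_card_of_surjective _ (QuotientGroup.mk'_surjective _)⟩
  rw [Subgroup.card_eq_card_quotient_mul_card_subgroup (Subgroup.center SL(2, F)), mul_comm]
  refine Nat.mul_le_mul_right _ ?_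
  have : (Subgroup.center SL(2, F) : Set SL(2, F)) ⊆ {1, -1} := fun g hg =>
    pr_one.1 ((QuotientGroup.eq_one_iff g).2 hg)
  exact (Set.ncard_le_ncard this).trans ((Set.ncard_insert_le _ _).trans (by simp))

theorem upow {u : SL(2, F)} {ν : M2 F} (h : vl u = 1 + ν) (h1 : ν * ν = 0) (k : ℕ) :
    vl (u ^ k) = 1 + (k : F) • ν := by
  induction k with
  | zero => simp
  | succ k ih => rw [pow_succ, vl_mul, ih, h]; simp [add_mul, mul_add, h1, add_smul]; abel

theorem ord4 (h2 : ¬IsSquare (2 : F)) (x : PSL(2, F)) (hx : x ^ 4 = 1) : x ^ 2 = 1 := by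
  obtain ⟨g, rfl⟩ := QuotientGroup.mk'_surjective _ x
  rw [← map_pow, pr_one] at hx ⊢
  have e : vl (g ^ 4) = (trace (vl g) ^ 3 - 2 * trace (vl g)) • vl g -
      (trace (vl g) ^ 2 - 1) • 1 := by
    rw [show g ^ 4 = g * g * g * g by simp [pow_succ]]
    simp only [vl_mul, ch, sub_mul, smul_mul_assoc, one_mul, smul_sub]
    module
  by_cases h : trace (vl g) = 0
  · exact Or.inr (vl_ext (by rw [sq, vl_mul, ch, h]; simp))
  have h3 : trace (vl g) ^ 3 - 2 * trace (vl g) ≠ 0 := fun h3 => h2 ⟨trace (vl g),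
    mul_left_cancel₀ h (by linear_combination -h3)⟩
  obtain ⟨c, hc⟩ : ∃ c : F, vl (g ^ 4) = c • 1 := by
    rcases hx with h | h <;> rw [h]
    exacts [⟨1, by simp⟩, ⟨-1, by simp⟩]
  rw [hc, eq_sub_iff_add_eq, ← add_smul] at e
  rcases scal (g := g) (c := (trace (vl g) ^ 3 - 2 * trace (vl g))⁻¹ * (c + (trace (vl g) ^ 2 - 1)))
    (by rw [mul_smul, e, inv_smul_smul₀ h3]) with rfl | rfl <;> simp

end

variable {p : ℕ} [Fact p.Prime]

theorem struct (h5 : 5 ≤ p) (hn : ¬IsSquare (-1 : ZMod p)) (K : Subgroup PSL(2, ZMod p))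
    (hK : K ≠ ⊤) {a b : SL(2, ZMod p)} (ha : pr a ∈ K) (hb : pr b ∈ K) (ho : 12 ≤ orderOf a) :
    Cond a b := by
  have h2 : (2 : ZMod p) ≠ 0 := fun h => hn ⟨1, by linear_combination -h⟩
  have hz : (-1 : SL(2, ZMod p)) ∈ K.comap pr := by
    rw [Subgroup.mem_comap, pr_one.2 (Or.inr rfl)]; exact one_mem _
  by_cases ht : ∀ h ∈ K.comap pr, h ≠ 1 → h ≠ -1 → trace (vl h) ^ 2 ≠ 4
  · exact (semis hn _ hz ht ha hb ho).imp_right Or.inl
  push Not at ht
  obtain ⟨u, hu, u1, tu⟩ : ∃ u ∈ K.comap pr, u ≠ 1 ∧ trace (vl u) = 2 := by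
    obtain ⟨h, h0, h1, h1', h3⟩ := ht
    rcases sq_eq_sq_iff_eq_or_eq_neg.1 (show trace (vl h) ^ 2 = 2 ^ 2 by rw [h3]; norm_num)
      with e | e
    · exact ⟨h, h0, h1, e⟩
    · exact ⟨-1 * h, mul_mem hz h0, by simpa [neg_eq_iff_eq_neg] using h1', by simp [e]⟩
  obtain ⟨ν, hν⟩ : ∃ ν, vl u = 1 + ν := ⟨vl u - 1, by simp⟩
  have n0 : ν ≠ 0 := by rintro rfl; exact u1 (vl_ext (by simpa using hν))
  have n1 : ν * ν = 0 := by
    have := ch u
    rw [tu, hν] at this
    simp only [add_mul, mul_add, one_mul, mul_one] at this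
    linear_combination (norm := module) this
  have n2 : trace ν = 0 := by rw [hν] at tu; simpa using tu
  have a1 : a ≠ 1 := by rintro rfl; simp at ho
  have a2 : a ≠ -1 := by
    rintro rfl
    have := orderOf_le_of_pow_eq_one (x := (-1 : SL(2, ZMod p))) two_pos (by simp); omega
  by_contra hc
  obtain ⟨g, hg, g0⟩ : ∃ g ∈ K.comap pr, ν * vl g * ν ≠ 0 := by
    by_contra h
    push Not at h
    exact hc (borel n0 n1 a1 a2 (h a ha) (h b hb))
  have inv : vl g⁻¹ * vl g = 1 := by rw [← vl_mul, inv_mul_cancel, vl_one]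
  have inv' : vl g * vl g⁻¹ = 1 := by rw [← vl_mul, mul_inv_cancel, vl_one]
  have hμ : vl (g * u * g⁻¹) = 1 + vl g * ν * vl g⁻¹ := by simp [hν, mul_add, add_mul, inv']
  have m1 : vl g * ν * vl g⁻¹ * (vl g * ν * vl g⁻¹) = 0 := by
    simp only [mul_assoc]
    rw [← mul_assoc (vl g⁻¹), inv, one_mul, ← mul_assoc ν, n1]; simp
  have m2 : trace (vl g * ν * vl g⁻¹) = 0 := by rw [trace_mul_cycle, inv, one_mul, n2]
  have m3 : ν * (vl g * ν * vl g⁻¹) ≠ 0 := fun h => g0 (by
    have := congrArg (· * vl g) h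
    simpa [mul_assoc, inv] using this)
  have hw : g * u * g⁻¹ ∈ K.comap pr := mul_mem (mul_mem hg hu) (inv_mem hg)
  generalize g * u * g⁻¹ = w at hμ hw
  generalize vl g * ν * vl g⁻¹ = μ at hμ m1 m2 m3
  have hs := ProjectiveSpecialLinearGroup.rank_two_simple (F := ZMod p) (by simp; omega)
  have tr2 : ∀ x : SL(2, ZMod p), trace (vl x) = 2 → x ≠ -1 := by
    rintro _ h rfl
    simp at h
    exact mul_ne_zero h2 h2 (by linear_combination -h)
  have hd : p ∣ Nat.card PSL(2, ZMod p) := by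
    have := orderOf_dvd_natCard (pr u)
    rwa [orderOf_eq_prime (x := pr u) (p := p) (by
      rw [← map_pow, show u ^ p = 1 from vl_ext (by simp [upow hν n1]), map_one])
      (fun h => (pr_one.1 h).elim u1 (tr2 u tu))] at this
  have i1 := index_ge (Fact.out : p.Prime) hd K hK
  have i2 := Nat.card_le_card_of_injective (fun x : ZMod p × ZMod p => (⟨pr (u ^ x.1.val *
    w ^ x.2.val), mul_mem (pow_mem hu _) (pow_mem hw _)⟩ : K)) (fun x y e => by
      have e1 : pr (u ^ x.1.val * w ^ x.2.val) = pr (u ^ y.1.val * w ^ y.2.val) :=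
        congrArg Subtype.val e
      have k : ∀ c : ZMod p × ZMod p, vl (u ^ c.1.val * w ^ c.2.val) =
          (1 + c.1 • ν) * (1 + c.2 • μ) := fun c => by simp [upow hν n1, upow hμ m1]
      obtain ⟨s, hs, e2⟩ : ∃ s : ZMod p, s * s = 1 ∧
          (1 + x.1 • ν) * (1 + x.2 • μ) = s • ((1 + y.1 • ν) * (1 + y.2 • μ)) := by
        rw [← mul_inv_eq_one, ← map_inv, ← map_mul, pr_one, mul_inv_eq_one,
          mul_inv_eq_iff_eq_mul] at e1
        rw [← k, ← k]
        rcases e1 with h | h <;> rw [h]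
        exacts [⟨1, by simp⟩, ⟨-1, by simp⟩]
      have e3 : 1 + (x.1 - y.1) • ν = s • (1 + (y.2 - x.2) • μ) := by
        have := congrArg (fun m => (1 - y.1 • ν) * m * (1 - x.2 • μ)) e2
        simp only [mul_add, add_mul, mul_sub, sub_mul, one_mul, mul_one, smul_mul_assoc,
          mul_smul_comm, mul_assoc, m1, ← mul_assoc ν ν, n1, zero_mul, mul_zero, smul_zero] at this
        linear_combination (norm := module) this
      have e4 : s = 1 := by
        have := congrArg trace e3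
        simp [n2, m2] at this
        exact mul_right_cancel₀ h2 (by linear_combination -this)
      have e5 := congrArg (ν * ·) e3
      simp [e4, mul_add, n1, m3, sub_eq_zero] at e5
      simp [e4, e5, n0, sub_eq_zero] at e3
      exact Prod.ext e3 e5.symm)
  have i3 := SL_lt (F := ZMod p)
  have i4 := (PSL_card (F := ZMod p)).2
  rw [Nat.card_prod, Nat.card_zmod] at i2
  rw [Nat.card_zmod] at i3
  nlinarith [Nat.mul_le_mul_left p i2]

theorem gen (h5 : 5 ≤ p) (hn : ¬IsSquare (-1 : ZMod p)) :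
    (p - 1) * Nat.card {x : PSL(2, ZMod p) × PSL(2, ZMod p) //
      Subgroup.closure {x.1, x.2} ≠ ⊤} ≤ 300000 * Nat.card PSL(2, ZMod p) ^ 2 := by
  classical
  have h2 : (2 : ZMod p) ≠ 0 := fun h => hn ⟨1, by linear_combination -h⟩
  have := Fintype.ofFinite SL(2, ZMod p)
  have h1 := Nat.card_le_card_of_injective (fun x : {x : PSL(2, ZMod p) × PSL(2, ZMod p) //
      Subgroup.closure {x.1, x.2} ≠ ⊤} => (⟨(x.1.1.out, x.1.2.out), by
        by_contra h
        push Not at h
        exact h.2 h.1 (struct h5 hn _ x.2 (by simpa using Subgroup.subset_closure (by simp))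
          (by simpa using Subgroup.subset_closure (by simp)) h.1)⟩ :
      {y : SL(2, ZMod p) × SL(2, ZMod p) // orderOf y.1 < 12 ∨ (12 ≤ orderOf y.1 ∧ Cond y.1 y.2)}))
    (fun x y e => Subtype.ext (Prod.ext (Quotient.out_injective (congrArg (·.1.1) e))
      (Quotient.out_injective (congrArg (·.1.2) e))))
  have h3 : Nat.card {y : SL(2, ZMod p) × SL(2, ZMod p) // orderOf y.1 < 12 ∨
      (12 ≤ orderOf y.1 ∧ Cond y.1 y.2)} ≤ (2 + 27719 * (2 * p ^ 2)) * Nat.card SL(2, ZMod p) +
        Nat.card SL(2, ZMod p) * (8 * p ^ 2) := by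
    rw [Nat.card_eq_fintype_card, Fintype.card_subtype, filter_or]
    refine (card_union_le _ _).trans (add_le_add ?_ ?_)
    · have := small (F := ZMod p)
      rw [Nat.card_eq_fintype_card, Fintype.card_subtype, Nat.card_zmod] at this
      rw [← univ_product_univ, filter_product_left (fun a => orderOf a < 12), card_product,
        Nat.card_eq_fintype_card]
      exact Nat.mul_le_mul_right _ this
    · rw [card_filter, ← univ_product_univ, sum_product, Nat.card_eq_fintype_card]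
      refine sum_le_card_nsmul _ _ _ (fun a _ => ?_)
      by_cases ho : 12 ≤ orderOf a
      · have := cond_card h2 (a := a) (by rintro rfl; simp at ho) (by
          rintro rfl
          have := orderOf_le_of_pow_eq_one (x := (-1 : SL(2, ZMod p))) two_pos (by simp); omega)
        rw [Nat.card_eq_fintype_card, Fintype.card_subtype, Nat.card_zmod, card_filter] at this
        simpa [ho] using this
      · simp [ho]
  have h4 := SL_ge (F := ZMod p)
  have h6 := (PSL_card (F := ZMod p)).1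
  rw [Nat.card_zmod] at h4
  have h7 : 1 ≤ p ^ 2 := Nat.one_le_pow _ _ (by omega)
  generalize Nat.card SL(2, ZMod p) = s at *
  generalize Nat.card PSL(2, ZMod p) = t at *
  have h8 := (h1.trans h3).trans (show _ ≤ 75000 * p ^ 2 * s by nlinarith)
  nlinarith [Nat.mul_le_mul_left (p - 1) h8, Nat.mul_le_mul_right s h4, Nat.mul_le_mul h6 h6]

end Pool.Agent.H.MP_b9a4b9_al
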