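import Mathlib
import Pool.Agent.H.MP_b9a4b9_al.D

set_option autoImplicit false

open Finset MulAction Matrix
open scoped MatrixGroups LinearAlgebra.Projectivization Pointwise

namespace Pool.Agent.H.MP_b9a4b9_al

theorem upowZ {F : Type} [Field F] {u : SL(2, F)} {ν : M2 F} (h : vl u = 1 + ν) (h1 : ν * ν = 0)
    (n : ℤ) : vl (u ^ n) = 1 + (n : F) • ν := by
  obtain ⟨k, rfl | rfl⟩ := Int.eq_nat_or_neg n
  · rw [zpow_natCast, upow h h1]; simp
  · have e : vl u⁻¹ = 1 + -ν := by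
      have e1 : vl u⁻¹ * (1 + ν) = 1 := by rw [← h, ← vl_mul, inv_mul_cancel, vl_one]
      have e2 : (1 + ν) * (1 + -ν) = 1 := by simp [add_mul, mul_add, h1]
      calc vl u⁻¹ = vl u⁻¹ * ((1 + ν) * (1 + -ν)) := by rw [e2, mul_one]
        _ = _ := by rw [← mul_assoc, e1, one_mul]
    rw [_root_.zpow_neg, zpow_natCast, ← inv_pow, upow e (by simp [h1])]; simp

noncomputable def s2 : ℝ := Real.sqrt 2

theorem s2_sq : s2 * s2 = 2 := Real.mul_self_sqrt (by norm_num)

noncomputable def gx : SL(2, ℝ) :=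
  ⟨!![s2, -s2 / 2; s2, 0], by rw [det_fin_two_of]; linear_combination (1 / 2) * s2_sq⟩

def ga : SL(2, ℝ) := ⟨!![1, 8; 0, 1], by rw [det_fin_two_of]; norm_num⟩

def gb : SL(2, ℝ) := ⟨!![7, -18; 2, -5], by rw [det_fin_two_of]; norm_num⟩

theorem gx1 : vl gx = !![s2, -s2 / 2; s2, 0] := rfl

theorem gx2 : vl (gx ^ 2) = !![1, -1; 2, -1] := by
  have := s2_sq
  rw [pow_two, vl_mul, gx1]
  ext i j; fin_cases i <;> fin_cases j <;> simp [mul_apply, Fin.sum_univ_two] <;> linarith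

theorem gx3 : vl (gx ^ 3) = !![0, -s2 / 2; s2, -s2] := by
  rw [pow_succ, vl_mul, gx2, gx1]
  ext i j; fin_cases i <;> fin_cases j <;> simp [mul_apply, Fin.sum_univ_two] <;> linarith

theorem gx4 : gx ^ 4 = -1 := by
  apply vl_ext
  rw [show 4 = 2 + 2 from rfl, pow_add, vl_mul, gx2]
  ext i j; fin_cases i <;> fin_cases j <;> simp [mul_apply, Fin.sum_univ_two] <;> norm_num

theorem gaZ (n : ℤ) : vl (ga ^ n) = !![1, 8 * (n : ℝ); 0, 1] := by
  rw [upowZ (ν := !![0, 8; 0, 0])]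
  · ext i j; fin_cases i <;> fin_cases j <;> simp [mul_comm]
  · ext i j; fin_cases i <;> fin_cases j <;> simp [vl, ga]
  · ext i j; fin_cases i <;> fin_cases j <;> simp [mul_apply, Fin.sum_univ_two]

theorem gbZ (n : ℤ) :
    vl (gb ^ n) = !![1 + 6 * (n : ℝ), -18 * (n : ℝ); 2 * (n : ℝ), 1 - 6 * (n : ℝ)] := by
  rw [upowZ (ν := !![6, -18; 2, -6])]
  · ext i j; fin_cases i <;> fin_cases j <;> simp [mul_comm, sub_eq_add_neg]
  · ext i j; fin_cases i <;> fin_cases j <;> simp [vl, gb] <;> norm_num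
  · ext i j; fin_cases i <;> fin_cases j <;> simp [mul_apply, Fin.sum_univ_two] <;> norm_num

noncomputable def gg : Option Bool → SL(2, ℝ)
  | none => gx
  | some false => ga
  | some true => gb

def Q : Option Bool → (Fin 2 → ℝ) → ℝ
  | none => fun v => (v 0 + v 1) * (3 * v 1 - 2 * v 0)
  | some false => fun v => v 0 ^ 2 - 16 * v 1 ^ 2
  | some true => fun v => v 1 ^ 2 - (v 0 - 3 * v 1) ^ 2

theorem Q_smul (i : Option Bool) (c : ℝ) (v : Fin 2 → ℝ) : Q i (c • v) = c ^ 2 * Q i v := by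
  rcases i with _ | _ | _ <;> simp only [Q, Pi.smul_apply, smul_eq_mul] <;> ring

theorem Q_neg {i j : Option Bool} (h : i ≠ j) {v : Fin 2 → ℝ} (hv : 0 < Q j v) : Q i v < 0 := by
  rcases i with _ | _ | _ <;> rcases j with _ | _ | _ <;> simp only [Q] at hv ⊢ <;>
    first
    | exact absurd rfl h
    | nlinarith [sq_nonneg (v 0 - 4 * v 1), sq_nonneg (6 * v 0 - 7 * v 1),
        sq_nonneg (2 * v 0 - v 1), sq_nonneg (v 1)]

theorem Q_pp (i : Option Bool) (n : ℤ) (hn : pr (gg i) ^ n ≠ 1) {v : Fin 2 → ℝ}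
    (hv : Q i v < 0) : ∃ g : SL(2, ℝ), pr (gg i) ^ n = pr g ∧ 0 < Q i (vl g *ᵥ v) := by
  have h0 : n ≠ 0 := fun h => hn (by rw [h, zpow_zero])
  have h1 : (1 : ℝ) ≤ (n : ℝ) ^ 2 := by
    have : 1 ≤ n ^ 2 := by have := sq_pos_of_ne_zero h0; omega
    exact_mod_cast this
  have hs := s2_sq
  rcases i with _ | _ | _
  · have h4 : pr gx ^ (4 : ℤ) = 1 := by
      rw [show (4 : ℤ) = (4 : ℕ) from rfl, zpow_natCast, ← map_pow, gx4, pr_one]; simp
    simp only [gg, Q] at hn hv ⊢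
    rw [zpow_eq_zpow_emod n h4] at hn ⊢
    have : n % 4 = 0 ∨ n % 4 = (1 : ℕ) ∨ n % 4 = (2 : ℕ) ∨ n % 4 = (3 : ℕ) := by omega
    rcases this with h | h | h | h <;> rw [h] at hn ⊢
    · exact absurd (zpow_zero _) hn
    · refine ⟨gx ^ 1, by rw [zpow_natCast, map_pow], ?_⟩
      simp only [pow_one, gx1, mulVec, dotProduct, Fin.sum_univ_two]
      simp
      have e : (s2 * v 0 + -s2 / 2 * v 1 + s2 * v 0) * (3 * (s2 * v 0) -
          2 * (s2 * v 0 + -s2 / 2 * v 1)) = (4 * v 0 - v 1) * (v 0 + v 1) := by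
        linear_combination ((4 * v 0 - v 1) * (v 0 + v 1) / 2) * hs
      nlinarith [sq_nonneg (v 0 + v 1)]
    · refine ⟨gx ^ 2, by rw [zpow_natCast, map_pow], ?_⟩
      simp only [gx2, mulVec, dotProduct, Fin.sum_univ_two]
      simp
      nlinarith [sq_nonneg (v 0 + v 1), sq_nonneg (2 * v 0 - 3 * v 1)]
    · refine ⟨gx ^ 3, by rw [zpow_natCast, map_pow], ?_⟩
      simp only [gx3, mulVec, dotProduct, Fin.sum_univ_two]
      simp
      have e : (-s2 / 2 * v 1 + (s2 * v 0 + -(s2 * v 1))) * (3 * (s2 * v 0 + -(s2 * v 1)) -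
          2 * (-s2 / 2 * v 1)) = (2 * v 0 - 3 * v 1) * (3 * v 0 - 2 * v 1) := by
        linear_combination ((2 * v 0 - 3 * v 1) * (3 * v 0 - 2 * v 1) / 2) * hs
      nlinarith [sq_nonneg (2 * v 0 - 3 * v 1)]
  · refine ⟨ga ^ n, by rw [map_zpow]; rfl, ?_⟩
    simp only [Q, gaZ, mulVec, dotProduct, Fin.sum_univ_two] at hv ⊢
    simp
    nlinarith [sq_nonneg (v 0 + 4 * (n * v 1)), mul_le_mul_of_nonneg_right h1 (sq_nonneg (v 1))]
  · refine ⟨gb ^ n, by rw [map_zpow]; rfl, ?_⟩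
    simp only [Q, gbZ, mulVec, dotProduct, Fin.sum_univ_two] at hv ⊢
    simp only [of_apply, cons_val', cons_val_zero, cons_val_one, cons_val_fin_one]
    nlinarith [sq_nonneg (v 1 + n * (v 0 - 3 * v 1)),
      mul_le_mul_of_nonneg_right h1 (sq_nonneg (v 0 - 3 * v 1))]

def XX (i : Option Bool) : Set (ℙ ℝ (Fin 2 → ℝ)) := {x | 0 < Q i x.rep}

theorem memX (i : Option Bool) (v : Fin 2 → ℝ) (hv : v ≠ 0) :
    Projectivization.mk ℝ v hv ∈ XX i ↔ 0 < Q i v := by
  obtain ⟨a, ha⟩ := Projectivization.exists_smul_eq_mk_rep ℝ v hv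
  have : 0 < (a : ℝ) ^ 2 := sq_pos_of_ne_zero a.ne_zero
  change 0 < Q i _ ↔ _
  rw [← ha, Units.smul_def, Q_smul, mul_pos_iff_of_pos_left this]

theorem act (g : SL(2, ℝ)) (v : Fin 2 → ℝ) (hv : v ≠ 0) :
    ∃ h, pr g • Projectivization.mk ℝ v hv = Projectivization.mk ℝ (vl g *ᵥ v) h :=
  ⟨(smul_ne_zero_iff_ne g).mpr hv, rfl⟩

noncomputable abbrev HH (i : Option Bool) : Subgroup PSL(2, ℝ) :=
  (zpowersHom PSL(2, ℝ) (pr (gg i))).range

noncomputable abbrev LL : Monoid.CoprodI (fun i => HH i) →* PSL(2, ℝ) :=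
  Monoid.CoprodI.lift fun i => (HH i).subtype

theorem LL_inj : Function.Injective LL := by
  refine Monoid.CoprodI.lift_injective_of_ping_pong _ (Or.inl (by simp)) XX ?_ ?_ ?_
  · rintro (_ | _ | _)
    · exact ⟨_, (memX _ ![0, 1] (by simp)).2 (by simp [Q])⟩
    · exact ⟨_, (memX _ ![1, 0] (by simp)).2 (by simp [Q])⟩
    · exact ⟨_, (memX _ ![3, 1] (by simp)).2 (by simp [Q])⟩
  · intro i j h
    exact Set.disjoint_left.2 fun x hi hj => lt_asymm hi (Q_neg h hj)
  · rintro i j h ⟨_, n, rfl⟩ hn _ ⟨x, hx, rfl⟩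
    induction x with
    | h v hv =>
      obtain ⟨g, e, hg⟩ := Q_pp i n.toAdd (fun e => hn (Subtype.ext e))
        (Q_neg h ((memX j v hv).1 hx))
      obtain ⟨h', e'⟩ := act g v hv
      change (pr (gg i) ^ n.toAdd) • _ ∈ _
      rw [e, e', memX]; exact hg

theorem hom_equiv (G : Type) [Group G] : ∃ (a b : LL.range) (T : Type)
    (e : (LL.range →* G) ≃ T × (G × G)), ∀ φ, (e φ).2 = (φ a, φ b) := by
  have hz : ∀ b : Bool, Function.Injective (zpowersHom PSL(2, ℝ) (pr (gg (some b)))) := by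
    intro b
    rw [injective_iff_map_eq_one]
    intro n hn
    change pr (gg (some b)) ^ n.toAdd = 1 at hn
    rw [← map_zpow, pr_one] at hn
    have : vl (gg (some b) ^ n.toAdd) 0 1 = 0 := by rcases hn with h | h <;> simp [h]
    have h0 : n.toAdd = 0 := by
      cases b
      · simpa [gg, gaZ] using this
      · simpa [gg, gbZ] using this
    exact toAdd_eq_zero.1 h0
  exact ⟨MonoidHom.ofInjective LL_inj (Monoid.CoprodI.of (i := some false)
      (MonoidHom.ofInjective (hz false) (Multiplicative.ofAdd 1))),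
    MonoidHom.ofInjective LL_inj (Monoid.CoprodI.of (i := some true)
      (MonoidHom.ofInjective (hz true) (Multiplicative.ofAdd 1))), HH none →* G,
    (MonoidHom.ofInjective LL_inj).symm.monoidHomCongrLeftEquiv.trans
      (Monoid.CoprodI.lift.symm.trans (Equiv.piOptionEquivProd.trans ((Equiv.refl _).prodCongr
        ((Equiv.piCongrRight fun b => (MonoidHom.ofInjective
          (hz b)).symm.monoidHomCongrLeftEquiv.trans (zpowersHom G).symm).trans
            (Equiv.boolArrowEquivProd G))))), fun φ => rfl⟩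

theorem gg_mem (i : Option Bool) : pr (gg i) ∈ LL.range := by
  rw [Monoid.CoprodI.range_eq_iSup]
  refine Subgroup.mem_iSup_of_mem i ?_
  rw [Subgroup.range_subtype]
  exact ⟨Multiplicative.ofAdd 1, by simp⟩

theorem LL_fg : LL.range.FG := by
  rw [Monoid.CoprodI.range_eq_iSup]
  refine (Subgroup.fg_iff _).2 ⟨Set.range fun i => pr (gg i), ?_, Set.finite_range _⟩
  rw [Set.range_eq_iUnion, Subgroup.closure_iUnion]
  congr 1; ext1 i
  rw [Subgroup.range_subtype, ← Subgroup.zpowers_eq_closure]; rfl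

def Dg : Subgroup SL(2, ℝ) where
  carrier := {g | ∃ a b c d : ℤ, vl g = !![(a : ℝ), b; 2 * c, d] ∨
    vl g = !![s2 * a, s2 * b / 2; s2 * c, s2 * d]}
  one_mem' := ⟨1, 0, 0, 1, Or.inl (by ext i j; fin_cases i <;> fin_cases j <;> simp)⟩
  mul_mem' := by
    have hs := s2_sq
    rintro g h ⟨a, b, c, d, hg | hg⟩ ⟨a', b', c', d', hh | hh⟩
    · refine ⟨a * a' + 2 * b * c', a * b' + b * d', c * a' + d * c', 2 * c * b' + d * d',
        Or.inl ?_⟩
      rw [vl_mul, hg, hh]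
      ext i j; fin_cases i <;> fin_cases j <;> simp [mul_apply, Fin.sum_univ_two] <;> ring
    · refine ⟨a * a' + b * c', a * b' + 2 * b * d', 2 * c * a' + d * c', c * b' + d * d',
        Or.inr ?_⟩
      rw [vl_mul, hg, hh]
      ext i j; fin_cases i <;> fin_cases j <;> simp [mul_apply, Fin.sum_univ_two] <;> ring
    · refine ⟨a * a' + b * c', 2 * a * b' + b * d', c * a' + 2 * d * c', c * b' + d * d',
        Or.inr ?_⟩
      rw [vl_mul, hg, hh]
      ext i j; fin_cases i <;> fin_cases j <;> simp [mul_apply, Fin.sum_univ_two] <;> ring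
    · refine ⟨2 * a * a' + b * c', a * b' + b * d', c * a' + d * c', c * b' + 2 * d * d',
        Or.inl ?_⟩
      rw [vl_mul, hg, hh]
      ext i j; fin_cases i <;> fin_cases j <;> simp [mul_apply, Fin.sum_univ_two]
      · linear_combination (a * a' + b * c' / 2 : ℝ) * hs
      · linear_combination ((a * b' + b * d') / 2 : ℝ) * hs
      · linear_combination (c * a' + d * c' : ℝ) * hs
      · linear_combination (c * b' / 2 + d * d' : ℝ) * hs
  inv_mem' := by
    rintro g ⟨a, b, c, d, hg | hg⟩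
    · refine ⟨d, -b, -c, a, Or.inl ?_⟩
      change adjugate (vl g) = _
      rw [hg, adjugate_fin_two_of]; simp
    · refine ⟨d, -b, -c, a, Or.inr ?_⟩
      change adjugate (vl g) = _
      rw [hg, adjugate_fin_two_of]; simp [neg_div]

theorem Dg_int {g : SL(2, ℝ)} (h : g ∈ Dg) (i j : Fin 2) : ∃ k : ℤ, 2 * vl g i j ^ 2 = k := by
  have hs := s2_sq
  obtain ⟨a, b, c, d, hg | hg⟩ := h <;> rw [hg] <;> fin_cases i <;> fin_cases j
  · exact ⟨2 * a ^ 2, by simp⟩
  · exact ⟨2 * b ^ 2, by simp⟩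
  · exact ⟨8 * c ^ 2, by simp; ring⟩
  · exact ⟨2 * d ^ 2, by simp⟩
  · exact ⟨4 * a ^ 2, by simp; linear_combination (2 * a ^ 2 : ℝ) * hs⟩
  · exact ⟨b ^ 2, by simp; linear_combination (b ^ 2 / 2 : ℝ) * hs⟩
  · exact ⟨4 * c ^ 2, by simp; linear_combination (2 * c ^ 2 : ℝ) * hs⟩
  · exact ⟨4 * d ^ 2, by simp; linear_combination (2 * d ^ 2 : ℝ) * hs⟩

theorem le_Dg : LL.range.comap pr ≤ Dg := by
  have h1 : LL.range ≤ Dg.map pr := by
    rw [Monoid.CoprodI.range_eq_iSup]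
    refine iSup_le fun i => ?_
    rw [Subgroup.range_subtype]
    change Subgroup.zpowers (pr (gg i)) ≤ _
    rw [Subgroup.zpowers_le]
    refine Subgroup.mem_map_of_mem _ ?_
    rcases i with _ | _ | _
    · exact ⟨1, -1, 1, 0, Or.inr (by simp [gg, gx1])⟩
    · exact ⟨1, 8, 0, 1, Or.inl (by simp [gg, ga, vl])⟩
    · exact ⟨7, -18, 1, -5, Or.inl (by simp [gg, gb, vl])⟩
  intro g hg
  obtain ⟨g', h', e⟩ := h1 hg
  have : pr (g'⁻¹ * g) = 1 := by rw [map_mul, map_inv, e, inv_mul_cancel]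
  have h2 : g'⁻¹ * g ∈ Dg := by
    rcases pr_one.1 this with h | h <;> rw [h]
    · exact Dg.one_mem
    · exact ⟨-1, 0, 0, -1, Or.inl (by ext i j; fin_cases i <;> fin_cases j <;> simp)⟩
  simpa using Dg.mul_mem h' h2

theorem LL_disc : DiscreteTopology (LL.range.comap pr) := by
  refine discreteTopology_of_isOpen_singleton_one ?_
  have hc : ∀ i j, Continuous fun g : LL.range.comap pr => vl g.1 i j := fun i j =>
    (continuous_subtype_val.comp continuous_subtype_val).matrix_elem i j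
  have : ({1} : Set (LL.range.comap pr)) = {g | |vl g.1 0 1| < 1 / 2} ∩ ({g | |vl g.1 1 0| < 1 / 2}
      ∩ {g | |vl g.1 0 0 - 1| < 1 / 5}) := by
    ext g
    refine ⟨fun h => ?_, fun ⟨h1, h2, h3⟩ => ?_⟩
    · rw [Set.mem_singleton_iff.1 h]; simp
    · have z : ∀ i j, |vl g.1 i j| < 1 / 2 → vl g.1 i j = 0 := by
        intro i j h
        obtain ⟨k, hk⟩ := Dg_int (le_Dg g.2) i j
        obtain ⟨l, r⟩ := abs_lt.1 h
        have k1 : (k : ℝ) < 1 := by nlinarith
        have k2 : (-1 : ℝ) < k := by nlinarith [sq_nonneg (vl g.1 i j)]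
        have k0 : k = 0 := by
          have : k < 1 := by exact_mod_cast k1
          have : -1 < k := by exact_mod_cast k2
          omega
        rw [k0] at hk
        simpa using hk
      have e1 := z _ _ h1
      have e2 := z _ _ h2
      obtain ⟨k, hk⟩ := Dg_int (le_Dg g.2) 0 0
      obtain ⟨l, r⟩ := abs_lt.1 (show |vl g.1 0 0 - 1| < 1 / 5 from h3)
      have k1 : (k : ℝ) < 3 := by nlinarith
      have k2 : (1 : ℝ) < k := by nlinarith
      have k0 : k = 2 := by
        have : k < 3 := by exact_mod_cast k1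
        have : 1 < k := by exact_mod_cast k2
        omega
      rw [k0] at hk
      have e3 : vl g.1 0 0 = 1 := by push_cast at hk; nlinarith
      have e4 := det1 g.1
      rw [e1, e3] at e4
      refine Subtype.ext (vl_ext ?_)
      ext i j; fin_cases i <;> fin_cases j <;> simp [e1, e2, e3]
      linarith
  rw [this]
  exact (isOpen_lt (hc 0 1).abs continuous_const).inter ((isOpen_lt (hc 1 0).abs
    continuous_const).inter (isOpen_lt ((hc 0 0).sub continuous_const).abs continuous_const))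

theorem orbH (z : UpperHalfPlane) : ((fun g : SL(2, ℝ) => g • z) ''
    (LL.range.comap pr : Set SL(2, ℝ))).Infinite := by
  refine Set.infinite_of_injective_forall_mem (f := fun n : ℤ => ga ^ n • z) ?_ fun n =>
    ⟨ga ^ n, Subgroup.zpow_mem _ (gg_mem (some false)) n, rfl⟩
  intro m n h
  have e : ∀ n : ℤ, ((ga ^ n • z : UpperHalfPlane) : ℂ) = z + 8 * n := by
    intro n
    rw [UpperHalfPlane.coe_specialLinearGroup_apply]
    change (algebraMap ℝ ℝ (vl (ga ^ n) 0 0) * _ + algebraMap ℝ ℝ (vl (ga ^ n) 0 1)) /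
      (algebraMap ℝ ℝ (vl (ga ^ n) 1 0) * _ + algebraMap ℝ ℝ (vl (ga ^ n) 1 1) : ℂ) = _
    simp [gaZ]
  have := congrArg ((↑) : UpperHalfPlane → ℂ) h
  simpa [e] using this

theorem orbP (x : ℙ ℝ (Fin 2 → ℝ)) : (orbit LL.range x).Infinite := by
  have key : ∀ (v : Fin 2 → ℝ) (hv : v ≠ 0), v 1 ≠ 0 →
      (orbit LL.range (Projectivization.mk ℝ v hv)).Infinite := by
    intro v hv h1
    refine Set.infinite_of_injective_forall_mem
      (f := fun n : ℤ => pr (ga ^ n) • Projectivization.mk ℝ v hv) ?_ fun n =>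
      ⟨⟨pr (ga ^ n), by rw [map_zpow]; exact Subgroup.zpow_mem _ (gg_mem (some false)) n⟩, rfl⟩
    intro m n h
    obtain ⟨_, e1⟩ := act (ga ^ m) v hv
    obtain ⟨_, e2⟩ := act (ga ^ n) v hv
    simp only [e1, e2, Projectivization.mk_eq_mk_iff'] at h
    obtain ⟨c, hc⟩ := h
    have c0 := congrFun hc 0
    have c1 := congrFun hc 1
    simp [gaZ, mulVec, dotProduct, Fin.sum_univ_two, h1] at c0 c1
    simpa [c1, h1, eq_comm] using c0
  induction x with
  | h v hv =>
    by_cases h1 : v 1 = 0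
    · obtain ⟨h', e⟩ := act gx v hv
      have : Projectivization.mk ℝ (vl gx *ᵥ v) h' ∈ orbit LL.range (Projectivization.mk ℝ v hv) :=
        ⟨⟨pr gx, gg_mem none⟩, e⟩
      rw [← orbit_eq_iff.2 this]
      refine key _ _ ?_
      have hs : s2 ≠ 0 := fun h => by have := s2_sq; rw [h] at this; norm_num at this
      have h0 : v 0 ≠ 0 := fun h0 => hv (by ext i; fin_cases i <;> simp [h0, h1])
      simp [gx1, mulVec, dotProduct, Fin.sum_univ_two, hs, h0]
    · exact key v hv h1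

end Pool.Agent.H.MP_b9a4b9_al
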